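import Pool.Agent.Y859.SF.Stm

/-!
# Squarefree integers coprime to a fixed integer
-/

set_option autoImplicit false

namespace Pool.Agent.Y859.SF

open Finset Filter

/-- halving recursion: if `A n = B n + B (n / p)` and `A n / n → α` then `B n / n → α p / (p + 1)` -/
theorem halving (p : ℕ) (hp : 2 ≤ p) (A B : ℕ → ℝ) (α : ℝ) (hA : ∀ n, A n = B n + B (n / p))
    (hlim : Tendsto (fun n : ℕ => A n / n) atTop (nhds α)) (hα : 0 ≤ α) :
    Tendsto (fun n : ℕ => B n / n) atTop (nhds (α * (p / (p + 1)))) := by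
  have hp0 : (0 : ℝ) < p := by exact_mod_cast (by omega : 0 < p)
  have hp2 : (2 : ℝ) ≤ p := by exact_mod_cast hp
  set β : ℝ := α * (p / (p + 1)) with hβ
  have hβ0 : 0 ≤ β := by positivity
  have hab : α = β + β / p := by
    rw [hβ]; field_simp
  rw [Metric.tendsto_atTop] at hlim ⊢
  intro ε hε
  -- the step
  obtain ⟨N₀, hN₀⟩ := hlim (ε / 8) (by positivity)
  set N₁ : ℕ := max (max N₀ 1) (⌈8 * β / ε⌉₊) with hN₁
  have hstep : ∀ n, N₁ ≤ n → |B n - β * n| ≤ ε / 4 * n + |B (n / p) - β * ((n / p : ℕ) : ℝ)| := by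
    intro n hn
    have hnN0 : N₀ ≤ n := le_trans (le_trans (le_max_left _ _) (le_max_left _ _)) hn
    have hn1 : 1 ≤ n := le_trans (le_trans (le_max_right _ _) (le_max_left _ _)) hn
    have hnc : ⌈8 * β / ε⌉₊ ≤ n := le_trans (le_max_right _ _) hn
    have hn0 : (0 : ℝ) < n := by exact_mod_cast hn1
    have h1 : 8 * β / ε ≤ n := (Nat.le_ceil _).trans (by exact_mod_cast hnc)
    rw [div_le_iff₀ hε] at h1
    have h2 : |A n - α * n| ≤ ε / 8 * n := by
      have h3 := (hN₀ n hnN0).le
      rw [Real.dist_eq] at h3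
      have h4 : A n - α * n = (A n / n - α) * n := by field_simp
      rw [h4, abs_mul, abs_of_pos hn0]
      exact mul_le_mul_of_nonneg_right h3 hn0.le
    have h5 : ((n / p : ℕ) : ℝ) ≤ n / p := Nat.cast_div_le
    have h6 : (n : ℝ) / p ≤ ((n / p : ℕ) : ℝ) + 1 := by
      rw [div_le_iff₀ hp0]
      have h7 : n < (n / p + 1) * p := by
        have := Nat.lt_div_mul_add (a := n) (b := p) (by omega)
        nlinarith
      have h8 : (n : ℝ) < (((n / p : ℕ) : ℝ) + 1) * p := by exact_mod_cast h7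
      exact h8.le
    have h9 : B n - β * n = (A n - α * n) - (B (n / p) - β * ((n / p : ℕ) : ℝ)) +
        β * ((n : ℝ) / p - ((n / p : ℕ) : ℝ)) := by
      rw [hA n]
      have : α * n = β * n + β * (n / p) := by rw [hab]; ring
      rw [this]; ring
    have h10 : |β * ((n : ℝ) / p - ((n / p : ℕ) : ℝ))| ≤ β := by
      rw [abs_of_nonneg (mul_nonneg hβ0 (by linarith))]
      have : (n : ℝ) / p - ((n / p : ℕ) : ℝ) ≤ 1 := by linarith
      calc β * ((n : ℝ) / p - ((n / p : ℕ) : ℝ)) ≤ β * 1 := mul_le_mul_of_nonneg_left this hβ0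
        _ = β := mul_one β
    rw [h9]
    have h11 := abs_add_le ((A n - α * n) - (B (n / p) - β * ((n / p : ℕ) : ℝ)))
      (β * ((n : ℝ) / p - ((n / p : ℕ) : ℝ)))
    have h12 := abs_sub (A n - α * n) (B (n / p) - β * ((n / p : ℕ) : ℝ))
    nlinarith
  -- a bound for small n
  set C : ℝ := ∑ n ∈ range N₁, |B n - β * n| with hC
  have hC0 : 0 ≤ C := Finset.sum_nonneg fun _ _ => abs_nonneg _
  have key : ∀ n : ℕ, |B n - β * n| ≤ ε / 2 * n + C := by
    intro n
    induction n using Nat.strong_induction_on with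
    | _ n ih =>
      by_cases hn : N₁ ≤ n
      · have hn1 : 1 ≤ n := le_trans (le_trans (le_max_right _ _) (le_max_left _ _)) hn
        have h1 := hstep n hn
        have h2 := ih (n / p) (Nat.div_lt_self hn1 (by omega))
        have h3 : ((n / p : ℕ) : ℝ) ≤ n / 2 := by
          have h4 : ((n / p : ℕ) : ℝ) ≤ n / p := Nat.cast_div_le
          have h5 : (n : ℝ) / p ≤ n / 2 :=
            div_le_div_of_nonneg_left (Nat.cast_nonneg _) (by norm_num) hp2
          linarith
        have h6 : ε / 2 * ((n / p : ℕ) : ℝ) ≤ ε / 2 * (n / 2) :=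
          mul_le_mul_of_nonneg_left h3 (by positivity)
        linarith
      · have h1 : |B n - β * n| ≤ C :=
          Finset.single_le_sum (f := fun n : ℕ => |B n - β * n|) (fun _ _ => abs_nonneg _)
            (Finset.mem_range.2 (by omega))
        have h2 : 0 ≤ ε / 2 * (n : ℝ) := by positivity
        linarith
  refine ⟨max 1 (⌈4 * C / ε⌉₊ + 1), fun n hn => ?_⟩
  have hn1 : 1 ≤ n := le_trans (le_max_left _ _) hn
  have hn0 : (0 : ℝ) < n := by exact_mod_cast hn1
  have hnc : ⌈4 * C / ε⌉₊ + 1 ≤ n := le_trans (le_max_right _ _) hn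
  have h1 : 4 * C / ε < n :=
    lt_of_le_of_lt (Nat.le_ceil _) (by exact_mod_cast (by omega : ⌈4 * C / ε⌉₊ < n))
  rw [div_lt_iff₀ hε] at h1
  rw [Real.dist_eq]
  have h2 : B n / n - β = (B n - β * n) / n := by field_simp
  rw [h2, abs_div, abs_of_pos hn0, div_lt_iff₀ hn0]
  have h3 := key n
  nlinarith

open scoped Classical in
/-- number of the squarefree integers in `[1, n]` coprime to `q` -/
noncomputable def sfc (q n : ℕ) : ℕ :=
  ((Icc 1 n).filter (fun m => Squarefree m ∧ m.Coprime q)).card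

theorem sfc_rec (q p n : ℕ) (hp : p.Prime) (hq : p.Coprime q) :
    sfc q n = sfc (p * q) n + sfc (p * q) (n / p) := by
  classical
  unfold sfc
  have h1 : (Icc 1 n).filter (fun m => Squarefree m ∧ m.Coprime q) =
      (Icc 1 n).filter (fun m => Squarefree m ∧ m.Coprime (p * q)) ∪
      ((Icc 1 (n / p)).filter (fun m => Squarefree m ∧ m.Coprime (p * q))).image (fun m => p * m) := by
    ext m
    simp only [mem_union, mem_filter, mem_Icc, mem_image]
    constructor
    · rintro ⟨⟨h1, h2⟩, h3, h4⟩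
      by_cases hd : p ∣ m
      · right
        obtain ⟨k, rfl⟩ := hd
        have hk0 : k ≠ 0 := by rintro rfl; simp at h1
        refine ⟨k, ⟨⟨Nat.pos_of_ne_zero hk0, ?_⟩, ?_, ?_⟩, rfl⟩
        · rw [Nat.le_div_iff_mul_le hp.pos]; linarith [mul_comm p k]
        · exact h3.of_mul_right
        · have h5 : Nat.Coprime p k := Nat.coprime_of_squarefree_mul h3
          exact Nat.Coprime.mul_right h5.symm (Nat.Coprime.coprime_mul_left h4)
      · left
        exact ⟨⟨h1, h2⟩, h3, Nat.Coprime.mul_right ((Nat.Prime.coprime_iff_not_dvd hp).2 hd).symm h4⟩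
    · rintro (⟨h1, h2, h3⟩ | ⟨k, ⟨⟨h1, h2⟩, h3, h4⟩, rfl⟩)
      · exact ⟨h1, h2, Nat.Coprime.coprime_mul_left_right h3⟩
      · rw [Nat.le_div_iff_mul_le hp.pos] at h2
        have h5 : Nat.Coprime k p := Nat.Coprime.coprime_mul_right_right h4
        have h6 : Nat.Coprime k q := Nat.Coprime.coprime_mul_left_right h4
        refine ⟨⟨Nat.mul_pos hp.pos h1, by linarith [mul_comm p k]⟩, ?_, ?_⟩
        · rw [Nat.squarefree_mul h5.symm]
          exact ⟨hp.squarefree, h3⟩
        · exact Nat.Coprime.mul_left hq h6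
  rw [h1, card_union_of_disjoint, card_image_of_injective]
  · intro a b hab
    exact Nat.eq_of_mul_eq_mul_left hp.pos hab
  · rw [Finset.disjoint_left]
    intro m hm hm'
    rw [mem_filter] at hm
    rw [mem_image] at hm'
    obtain ⟨k, -, rfl⟩ := hm'
    have h2 : Nat.Coprime (p * k) p := Nat.Coprime.coprime_mul_right_right hm.2.2
    have h3 : Nat.Coprime p p := Nat.Coprime.coprime_mul_right h2
    rw [Nat.coprime_self] at h3
    exact hp.one_lt.ne' h3

theorem sfc_step (q p : ℕ) (hp : p.Prime) (hq : p.Coprime q) (α : ℝ) (hα : 0 ≤ α)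
    (h : Tendsto (fun n : ℕ => (sfc q n : ℝ) / n) atTop (nhds α)) :
    Tendsto (fun n : ℕ => (sfc (p * q) n : ℝ) / n) atTop (nhds (α * (p / (p + 1)))) :=
  halving p hp.two_le (fun n => (sfc q n : ℝ)) (fun n => (sfc (p * q) n : ℝ)) α
    (fun n => by exact_mod_cast sfc_rec q p n hp hq) h hα

/-- the density of the squarefree integers coprime to `2310` -/
theorem sfc_2310 (hs : S_SQF) : Tendsto (fun n : ℕ => (sfc 2310 n : ℝ) / n) atTop
    (nhds (385 / 1152 * (6 / Real.pi ^ 2))) := by
  have h0 : Tendsto (fun n : ℕ => (sfc 1 n : ℝ) / n) atTop (nhds (6 / Real.pi ^ 2)) := by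
    unfold S_SQF at hs
    unfold sfc
    simpa using hs
  have hpi : (0 : ℝ) ≤ 6 / Real.pi ^ 2 := by positivity
  have h1 := sfc_step 1 2 (by norm_num) (by norm_num) _ hpi h0
  have h2 := sfc_step _ 3 (by norm_num) (by norm_num) _ (by positivity) h1
  have h3 := sfc_step _ 5 (by norm_num) (by norm_num) _ (by positivity) h2
  have h4 := sfc_step _ 7 (by norm_num) (by norm_num) _ (by positivity) h3
  have h5 := sfc_step _ 11 (by norm_num) (by norm_num) _ (by positivity) h4
  convert h5 using 2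
  push_cast
  ring

end Pool.Agent.Y859.SF
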