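import Pool.Agent.Y859.SF.All
import Pool.Agent.Y859.SF.Cop

/-!
# Square products of factorials: the densities of `D_4` and of `D_5 ∪ D_6`

`D_4` has the density `1 - 6/π²`, and `D_5 ∪ D_6` has the density `6/π²`: up to sets of density zero
they consist of the integers that are not squarefree and of the squarefree ones, respectively. Almost
all squarefree integers with a prime factor `≤ 11` lie in `D_5`.

The classification of the representations of almost all integers by at most four factorials is due to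
the project SF (see `Pool.Agent.Y859.SF.All`).
-/

set_option autoImplicit false

namespace Pool.Agent.Y859.SF.D456

open Finset Filter

/-- `m` has a representation of length `k`: a set of `k` positive integers with largest element
`m` such that the product of the factorials of its elements is a perfect square. -/
def HasRep (m k : ℕ) : Prop :=
  ∃ s : Finset ℕ, s.card = k ∧ m ∈ s ∧ (∀ a ∈ s, 1 ≤ a ∧ a ≤ m) ∧
    IsSquare (∏ a ∈ s, a.factorial)

/-- `m ∈ D_k`: the least `j ≥ 2` for which `m` has a representation of length `j` is `k`. -/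
def InD (k m : ℕ) : Prop :=
  2 ≤ k ∧ HasRep m k ∧ ∀ j, 2 ≤ j → j < k → ¬ HasRep m j

open Classical in
/-- the counting function `N_k(n)` of `D_k` -/
noncomputable def N (k n : ℕ) : ℕ := ((Icc 1 n).filter (fun m => InD k m)).card

open Y859.SF (Null null_mono null_union S_DENS S_SQF S_CLS InF)

theorem inF_of {m j k : ℕ} (h : HasRep m j) (h1 : 1 ≤ j) (h2 : j ≤ k) : InF k m := by
  obtain ⟨s, e1, e2, e3, e4⟩ := h
  exact ⟨s, by omega, by omega, e2, e3, e4⟩

theorem four_of {m : ℕ} (h : InF 4 m) (h3 : ¬ InF 3 m) : HasRep m 4 := by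
  obtain ⟨s, e1, e2, e3, e4, e5⟩ := h
  refine ⟨s, ?_, e3, e4, e5⟩
  by_contra hne
  exact h3 ⟨s, e1, by omega, e3, e4, e5⟩

/-! ### explicit representations -/

theorem rep_five (p c d r k : ℕ) (hr : c * p * d.factorial = r * r) (h1 : 1 ≤ d)
    (h2 : d + 2 ≤ c * k) (h3 : c * k + 2 ≤ p * k) : HasRep (p * k) 5 := by
  obtain ⟨u, hu⟩ : ∃ u, c * k = u + 1 := ⟨c * k - 1, by omega⟩
  obtain ⟨v, hv⟩ : ∃ v, p * k = v + 1 := ⟨p * k - 1, by omega⟩
  rw [hu, hv] at h3
  rw [hu] at h2
  refine ⟨{d, u, u + 1, v, v + 1}, ?_, by rw [hv]; simp, ?_, ?_⟩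
  · rw [card_insert_of_notMem (by simp only [mem_insert, mem_singleton]; omega),
      card_insert_of_notMem (by simp only [mem_insert, mem_singleton]; omega),
      card_insert_of_notMem (by simp only [mem_insert, mem_singleton]; omega),
      card_pair (by omega)]
  · intro a ha
    rw [hv]
    simp only [mem_insert, mem_singleton] at ha
    rcases ha with rfl | rfl | rfl | rfl | rfl <;> omega
  · rw [prod_insert (by simp only [mem_insert, mem_singleton]; omega),
      prod_insert (by simp only [mem_insert, mem_singleton]; omega),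
      prod_insert (by simp only [mem_insert, mem_singleton]; omega), prod_pair (by omega)]
    refine ⟨r * k * u.factorial * v.factorial, ?_⟩
    rw [Nat.factorial_succ, Nat.factorial_succ, ← hu, ← hv]
    calc d.factorial * (u.factorial * (c * k * u.factorial * (v.factorial *
          (p * k * v.factorial))))
        = (c * p * d.factorial) * (k * k * (u.factorial * u.factorial) *
          (v.factorial * v.factorial)) := by ring
      _ = _ := by rw [hr]; ring

theorem rep_six (a b : ℕ) (ha : 2 ≤ a) (hb : a + 2 ≤ b) : HasRep (a * b) 6 := by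
  obtain ⟨x, rfl⟩ : ∃ x, a = x + 1 := ⟨a - 1, by omega⟩
  obtain ⟨y, rfl⟩ : ∃ y, b = y + 1 := ⟨b - 1, by omega⟩
  obtain ⟨v, hv⟩ : ∃ v, (x + 1) * (y + 1) = v + 1 := ⟨x * y + x + y, by ring⟩
  have h1 : y + 1 < v := by nlinarith
  rw [hv]
  refine ⟨{x, x + 1, y, y + 1, v, v + 1}, ?_, by simp, ?_, ?_⟩
  · rw [card_insert_of_notMem (by simp only [mem_insert, mem_singleton]; omega),
      card_insert_of_notMem (by simp only [mem_insert, mem_singleton]; omega),
      card_insert_of_notMem (by simp only [mem_insert, mem_singleton]; omega),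
      card_insert_of_notMem (by simp only [mem_insert, mem_singleton]; omega),
      card_pair (by omega)]
  · intro a ha
    simp only [mem_insert, mem_singleton] at ha
    rcases ha with rfl | rfl | rfl | rfl | rfl | rfl <;> omega
  · rw [prod_insert (by simp only [mem_insert, mem_singleton]; omega),
      prod_insert (by simp only [mem_insert, mem_singleton]; omega),
      prod_insert (by simp only [mem_insert, mem_singleton]; omega),
      prod_insert (by simp only [mem_insert, mem_singleton]; omega), prod_pair (by omega)]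
    refine ⟨(x + 1) * (y + 1) * x.factorial * y.factorial * v.factorial, ?_⟩
    rw [Nat.factorial_succ, Nat.factorial_succ, Nat.factorial_succ, ← hv]
    ring

theorem rep_six_of {m : ℕ} (hm : 7 ≤ m) (hs : Squarefree m) (hp : ¬ m.Prime) : HasRep m 6 := by
  have hpm := Nat.minFac_prime (n := m) (by omega)
  obtain ⟨b, hb⟩ := Nat.minFac_dvd m
  set p := m.minFac with hpdef
  have hb0 : b ≠ 0 := by rintro rfl; omega
  have hb1 : b ≠ 1 := by
    rintro rfl
    apply hp
    rw [hb, mul_one]; exact hpm
  have hpb : p ≤ b := by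
    have h1 : p ≤ b.minFac := by
      apply Nat.minFac_le_of_dvd (Nat.minFac_prime hb1).two_le
      exact (Nat.minFac_dvd b).trans ⟨p, by rw [mul_comm]; exact hb⟩
    exact h1.trans (Nat.minFac_le (Nat.pos_of_ne_zero hb0))
  have hne : p ≠ b := by
    intro h
    rw [← h] at hb
    have := hs p ⟨1, by rw [mul_one]; exact hb⟩
    exact hpm.one_lt.ne' (Nat.isUnit_iff.1 this)
  have hne2 : b ≠ p + 1 := by
    intro h
    -- one of `p`, `p + 1` is even, so `p = 2` and `m = 6`
    have h2 : 2 ∣ m := by
      rw [hb, h]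
      rcases Nat.even_or_odd p with he | ho
      · exact (even_iff_two_dvd.1 he).mul_right _
      · exact (even_iff_two_dvd.1 ho.add_one).mul_left _
    have h3 : p ≤ 2 := Nat.minFac_le_of_dvd le_rfl h2
    have h4 : p = 2 := le_antisymm h3 hpm.two_le
    rw [h4] at h hb
    rw [h] at hb
    omega
  rw [hb]
  exact rep_six p b hpm.two_le (by omega)

/-- integers with a prime factor `≤ 11` have a representation of length `5` -/
theorem rep_five_of {m : ℕ} (hm : 200 ≤ m) (h : ¬ m.Coprime 2310) : HasRep m 5 := by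
  have h1 : ∃ p : ℕ, p.Prime ∧ p ∣ m ∧ p ∣ 2310 := by
    obtain ⟨p, hp, h1⟩ := Nat.exists_prime_and_dvd (n := Nat.gcd m 2310) h
    exact ⟨p, hp, h1.trans (Nat.gcd_dvd_left _ _), h1.trans (Nat.gcd_dvd_right _ _)⟩
  obtain ⟨p, hp, ⟨k, rfl⟩, h3⟩ := h1
  have h4 : p ∈ Nat.primeFactors 2310 := by
    rw [Nat.mem_primeFactors]; exact ⟨hp, h3, by norm_num⟩
  have h5 : Nat.primeFactors 2310 = {2, 3, 5, 7, 11} := by
    have e : (2310 : ℕ) = 2 * (3 * (5 * (7 * 11))) := by norm_num
    rw [e, Nat.primeFactors_mul (by norm_num) (by norm_num), Nat.primeFactors_mul (by norm_num)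
      (by norm_num), Nat.primeFactors_mul (by norm_num) (by norm_num),
      Nat.primeFactors_mul (by norm_num) (by norm_num), Nat.Prime.primeFactors (by norm_num),
      Nat.Prime.primeFactors (by norm_num), Nat.Prime.primeFactors (by norm_num),
      Nat.Prime.primeFactors (by norm_num), Nat.Prime.primeFactors (by norm_num)]
    rfl
  rw [h5] at h4
  simp only [mem_insert, mem_singleton] at h4
  rcases h4 with rfl | rfl | rfl | rfl | rfl
  · exact rep_five 2 1 2 2 k (by decide) (by norm_num) (by omega) (by omega)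
  · exact rep_five 3 2 3 6 k (by decide) (by norm_num) (by omega) (by omega)
  · exact rep_five 5 1 6 60 k (by decide) (by norm_num) (by omega) (by omega)
  · exact rep_five 7 5 7 420 k (by decide) (by norm_num) (by omega) (by omega)
  · exact rep_five 11 7 11 55440 k (by norm_num [Nat.factorial]) (by norm_num) (by omega) (by omega)

/-! ### null sets -/

theorem null_three : Null (fun m => InF 3 m) := Y859.SF.null_F3 Y859.SF.a_CLS Y235.SF.t_F3

theorem null_four : Null (fun m => ¬ (InF 4 m ↔ ¬ Squarefree m)) := by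
  refine null_mono (null_union null_three (Y859.SF.null_D4 Y859.SF.a_CLS Y235.SF.t_F4
    Y235.SF.t_F3 Y235.SF.t_NSF)) 0 (fun m _ h => ?_)
  by_contra hcon
  rw [not_or, not_not] at hcon
  apply h
  rw [← hcon.2]
  exact ⟨fun h => ⟨h, hcon.1⟩, fun h => h.1⟩

theorem null_prime : Null (fun m => m.Prime) := by
  intro ε hε
  have h1 := Chebyshev.eventually_primeCounting_le (ε := 1) one_pos
  have h2 : Tendsto (fun x : ℝ => Real.log x) atTop atTop := Real.tendsto_log_atTop
  have h3 := h1.and (h2.eventually_ge_atTop (2 * (Real.log 4 + 1) / ε + 1))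
  obtain ⟨X, hX⟩ := eventually_atTop.1 h3
  refine ⟨⌈X⌉₊ + 1, fun n hn => ?_⟩
  refine ⟨(Icc 1 (2 * n)).filter Nat.Prime, ?_, fun m h4 h5 h6 =>
    mem_filter.2 ⟨mem_Icc.2 ⟨by omega, h5⟩, h6⟩⟩
  have hn0 : (0 : ℝ) < n := by exact_mod_cast (by omega : 0 < n)
  have h7 : X ≤ ((2 * n : ℕ) : ℝ) := by
    refine (Nat.le_ceil X).trans ?_
    exact_mod_cast (by omega : ⌈X⌉₊ ≤ 2 * n)
  obtain ⟨h8, h9⟩ := hX _ h7
  rw [Nat.floor_natCast] at h8
  have h10 : (((Icc 1 (2 * n)).filter Nat.Prime).card : ℝ) = (Nat.primeCounting (2 * n) : ℝ) := by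
    congr 1
    rw [Nat.primeCounting, Nat.primeCounting', Nat.count_eq_card_filter_range]
    congr 1
    ext q
    simp only [mem_filter, mem_Icc, mem_range]
    constructor
    · rintro ⟨⟨a1, a2⟩, a3⟩; exact ⟨by omega, a3⟩
    · rintro ⟨a1, a2⟩; exact ⟨⟨a2.one_le, by omega⟩, a2⟩
  rw [h10]
  have hlog4 : 0 ≤ Real.log 4 := Real.log_nonneg (by norm_num)
  have h11 : 2 * (Real.log 4 + 1) / ε ≤ Real.log ((2 * n : ℕ) : ℝ) := by linarith
  have h12 : 0 < Real.log ((2 * n : ℕ) : ℝ) := by
    have : 0 ≤ 2 * (Real.log 4 + 1) / ε := by positivity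
    linarith
  refine h8.trans ?_
  rw [div_le_iff₀ h12]
  rw [div_le_iff₀ hε] at h11
  push_cast at h11 ⊢
  nlinarith

/-! ### densities -/

open Classical in
/-- predicates that agree almost always have the same density -/
theorem dens_congr {P Q : ℕ → Prop} (h : Null (fun m => ¬ (P m ↔ Q m))) {α : ℝ}
    (hQ : Tendsto (fun n : ℕ => (((Icc 1 n).filter Q).card : ℝ) / n) atTop (nhds α)) :
    Tendsto (fun n : ℕ => (((Icc 1 n).filter P).card : ℝ) / n) atTop (nhds α) := by
  have h0 := Y338.SF.t_DENS _ h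
  have key : ∀ n : ℕ, |(((Icc 1 n).filter P).card : ℝ) / n - (((Icc 1 n).filter Q).card : ℝ) / n| ≤
      (((Icc 1 n).filter (fun m => ¬ (P m ↔ Q m))).card : ℝ) / n := by
    intro n
    rw [← sub_div, abs_div, Nat.abs_cast]
    apply div_le_div_of_nonneg_right _ (Nat.cast_nonneg n)
    set A := (Icc 1 n).filter P
    set B := (Icc 1 n).filter Q
    set D := (Icc 1 n).filter (fun m => ¬ (P m ↔ Q m))
    have hP : A ⊆ B ∪ D := by
      intro m hm
      simp only [A, B, D, mem_filter, mem_union] at hm ⊢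
      tauto
    have hQ : B ⊆ A ∪ D := by
      intro m hm
      simp only [A, B, D, mem_filter, mem_union] at hm ⊢
      tauto
    have h6 : A.card ≤ B.card + D.card := (card_le_card hP).trans (card_union_le _ _)
    have h7 : B.card ≤ A.card + D.card := (card_le_card hQ).trans (card_union_le _ _)
    have h6' : (A.card : ℝ) ≤ B.card + D.card := by exact_mod_cast h6
    have h7' : (B.card : ℝ) ≤ A.card + D.card := by exact_mod_cast h7
    rw [abs_le]
    constructor <;> linarith
  have hz : Tendsto (fun n : ℕ => (((Icc 1 n).filter P).card : ℝ) / n -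
      (((Icc 1 n).filter Q).card : ℝ) / n) atTop (nhds 0) := by
    apply squeeze_zero_norm (a := fun n : ℕ =>
      (((Icc 1 n).filter (fun m => ¬ (P m ↔ Q m))).card : ℝ) / n)
    · intro n
      rw [Real.norm_eq_abs]
      exact key n
    · convert h0 using 6
  have := hz.add hQ
  simpa using this

theorem inD_four : Null (fun m => ¬ (InD 4 m ↔ ¬ Squarefree m)) := by
  refine null_mono (null_union null_three null_four) 0 (fun m _ h => ?_)
  by_contra hcon
  rw [not_or, not_not] at hcon
  obtain ⟨h3, h4⟩ := hcon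
  apply h
  rw [← h4]
  constructor
  · rintro ⟨-, h5, -⟩
    exact inF_of h5 (by norm_num) le_rfl
  · intro h5
    exact ⟨by norm_num, four_of h5 h3, fun j hj hj4 hr => h3 (inF_of hr (by omega) (by omega))⟩

theorem no_four {m : ℕ} (h4 : InF 4 m ↔ ¬ Squarefree m) (hs : Squarefree m)
    (j : ℕ) (hj : 2 ≤ j) (hj5 : j < 5) : ¬ HasRep m j := by
  intro h
  exact (h4.1 (inF_of h (by omega) (by omega))) hs

theorem inD_five_six : Null (fun m => ¬ ((InD 5 m ∨ InD 6 m) ↔ Squarefree m)) := by
  refine null_mono (null_union (null_union null_three null_four) null_prime) 7 (fun m hm h => ?_)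
  by_contra hcon
  rw [not_or, not_or, not_not] at hcon
  obtain ⟨⟨h3, h4⟩, hp⟩ := hcon
  apply h
  constructor
  · intro h5
    by_contra hs
    have h6 := four_of (h4.2 hs) h3
    rcases h5 with ⟨-, -, h5⟩ | ⟨-, -, h5⟩
    · exact h5 4 (by norm_num) (by norm_num) h6
    · exact h5 4 (by norm_num) (by norm_num) h6
  · intro hs
    by_cases h5 : HasRep m 5
    · left
      exact ⟨by norm_num, h5, fun j hj hj5 => no_four h4 hs j hj hj5⟩
    · right
      refine ⟨by norm_num, rep_six_of hm hs hp, fun j hj hj6 => ?_⟩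
      rcases Nat.lt_or_ge j 5 with h6 | h6
      · exact no_four h4 hs j hj h6
      · have : j = 5 := by omega
        rw [this]; exact h5

/-- almost all elements of `D_6` are squarefree and coprime to `2310` -/
theorem inD_six : Null (fun m => InD 6 m ∧ ¬ (Squarefree m ∧ m.Coprime 2310)) := by
  refine null_mono inD_five_six 200 (fun m hm h => ?_)
  obtain ⟨h6, h7⟩ := h
  intro h8
  have hs : Squarefree m := h8.1 (Or.inr h6)
  have hc : ¬ m.Coprime 2310 := fun hc => h7 ⟨hs, hc⟩
  exact h6.2.2 5 (by norm_num) (by norm_num) (rep_five_of hm hc)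

open Classical in
theorem sum_five_six (n : ℕ) : ((Icc 1 n).filter (fun m => InD 5 m ∨ InD 6 m)).card =
    N 5 n + N 6 n := by
  unfold N
  rw [filter_or, card_union_of_disjoint]
  rw [Finset.disjoint_left]
  intro m h5 h6
  rw [mem_filter] at h5 h6
  exact h6.2.2.2 5 (by norm_num) (by norm_num) h5.2.2.1

open Classical in
/-- (1) `N_4(n)/n → 1 - 6/π²`. (2) `(N_5(n) + N_6(n))/n → 6/π²`. (3) For all `ε > 0` and all large
`n`: `N_5(n) ≥ (767/1152 · 6/π² - ε) n` and `N_6(n) ≤ (385/1152 · 6/π² + ε) n`. (4) The sets of the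
`m` for which the equivalence of `m ∈ D_4` and `m` not squarefree, or that of `m ∈ D_5 ∪ D_6` and `m`
squarefree, fails have density zero, and so has the set of the elements of `D_6` divisible by one of
the primes `2, 3, 5, 7, 11`. -/
theorem main :
    Tendsto (fun n : ℕ => (N 4 n : ℝ) / n) atTop (nhds (1 - 6 / Real.pi ^ 2)) ∧
    Tendsto (fun n : ℕ => ((N 5 n : ℝ) + N 6 n) / n) atTop (nhds (6 / Real.pi ^ 2)) ∧
    (∀ ε : ℝ, 0 < ε → ∀ᶠ n : ℕ in atTop,
      (767 / 1152 * (6 / Real.pi ^ 2) - ε) * n ≤ N 5 n ∧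
      (N 6 n : ℝ) ≤ (385 / 1152 * (6 / Real.pi ^ 2) + ε) * n) ∧
    Tendsto (fun n : ℕ => (((Icc 1 n).filter (fun m => ¬ (InD 4 m ↔ ¬ Squarefree m) ∨
      ¬ ((InD 5 m ∨ InD 6 m) ↔ Squarefree m) ∨ (InD 6 m ∧ ¬ m.Coprime 2310))).card : ℝ) / n)
      atTop (nhds 0) := by
  have hsq := Y293.SF.t_SQF
  unfold S_SQF at hsq
  have h56 : Tendsto (fun n : ℕ => ((N 5 n : ℝ) + N 6 n) / n) atTop
      (nhds (6 / Real.pi ^ 2)) := by
    have h1 := dens_congr (P := fun m => InD 5 m ∨ InD 6 m) (Q := fun m => Squarefree m)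
      inD_five_six (by convert hsq using 6)
    refine h1.congr (fun n => ?_)
    have e : (((Icc 1 n).filter (fun m => InD 5 m ∨ InD 6 m)).card : ℝ) = N 5 n + N 6 n := by
      exact_mod_cast sum_five_six n
    rw [← e]
    congr 3
    ext m
    simp only [mem_filter]
  have h4 : Tendsto (fun n : ℕ => (N 4 n : ℝ) / n) atTop (nhds (1 - 6 / Real.pi ^ 2)) := by
    unfold N
    refine dens_congr (P := fun m => InD 4 m) (Q := fun m => ¬ Squarefree m) inD_four ?_
    have h1 : Tendsto (fun n : ℕ => 1 - (((Icc 1 n).filter (fun m => Squarefree m)).card : ℝ) / n)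
        atTop (nhds (1 - 6 / Real.pi ^ 2)) := tendsto_const_nhds.sub (by convert hsq using 6)
    refine h1.congr' ?_
    filter_upwards [eventually_ge_atTop 1] with n hn
    have hn0 : (0 : ℝ) < n := by exact_mod_cast hn
    have h5 : ((Icc 1 n).filter (fun m => Squarefree m)).card +
        ((Icc 1 n).filter (fun m => ¬ Squarefree m)).card = n := by
      rw [card_filter_add_card_filter_not]
      simp
    have h6 : ((((Icc 1 n).filter (fun m => Squarefree m)).card : ℝ) +
        (((Icc 1 n).filter (fun m => ¬ Squarefree m)).card : ℝ)) = n := by exact_mod_cast h5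
    have h7 : (((Icc 1 n).filter (fun m => ¬ Squarefree m)).card : ℝ) =
        n - (((Icc 1 n).filter (fun m => Squarefree m)).card : ℝ) := by linarith
    have h8 : 1 - (((Icc 1 n).filter (fun m => Squarefree m)).card : ℝ) / n =
        (((Icc 1 n).filter (fun m => ¬ Squarefree m)).card : ℝ) / n := by
      rw [h7]
      field_simp
    rw [h8]
    congr 3
    ext m
    simp only [mem_filter]
  have hcop : Tendsto (fun n : ℕ => (((Icc 1 n).filter (fun m => Squarefree m ∧
      m.Coprime 2310)).card : ℝ) / n) atTop (nhds (385 / 1152 * (6 / Real.pi ^ 2))) := by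
    convert Y859.SF.sfc_2310 Y293.SF.t_SQF using 5
    unfold Y859.SF.sfc
    congr 2
  have hnull6 : Tendsto (fun n : ℕ => (((Icc 1 n).filter (fun m => InD 6 m ∧
      ¬ (Squarefree m ∧ m.Coprime 2310))).card : ℝ) / n) atTop (nhds 0) := by
    convert Y338.SF.t_DENS _ inD_six using 6
  refine ⟨h4, h56, ?_, ?_⟩
  · intro ε hε
    have e1 := (Metric.tendsto_atTop.1 hcop) (ε / 4) (by positivity)
    have e2 := (Metric.tendsto_atTop.1 hnull6) (ε / 4) (by positivity)
    have e3 := (Metric.tendsto_atTop.1 h56) (ε / 4) (by positivity)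
    obtain ⟨n₁, e1⟩ := e1
    obtain ⟨n₂, e2⟩ := e2
    obtain ⟨n₃, e3⟩ := e3
    filter_upwards [eventually_ge_atTop (max n₁ (max n₂ (max n₃ 1)))] with n hn
    have hn1 : n₁ ≤ n := (le_max_left _ _).trans hn
    have hn2 : n₂ ≤ n := (le_max_left _ _).trans ((le_max_right _ _).trans hn)
    have hn3 : n₃ ≤ n := (le_max_left _ _).trans ((le_max_right _ _).trans ((le_max_right _ _).trans hn))
    have hn4 : 1 ≤ n := (le_max_right _ _).trans ((le_max_right _ _).trans ((le_max_right _ _).trans hn))
    have hn0 : (0 : ℝ) < n := by exact_mod_cast hn4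
    have e1 := e1 n hn1
    have e2 := e2 n hn2
    have e3 := e3 n hn3
    rw [Real.dist_eq, abs_lt] at e1 e2 e3
    have f1 := e1.2
    have f2 := e2.2
    have f3 := e3.1
    rw [sub_lt_iff_lt_add, div_lt_iff₀ hn0] at f1 f2
    rw [lt_sub_iff_add_lt, lt_div_iff₀ hn0] at f3
    have h6 : N 6 n ≤ ((Icc 1 n).filter (fun m => Squarefree m ∧ m.Coprime 2310)).card +
        ((Icc 1 n).filter (fun m => InD 6 m ∧ ¬ (Squarefree m ∧ m.Coprime 2310))).card := by
      unfold N
      rw [← card_union_of_disjoint]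
      · apply card_le_card
        intro m hm
        simp only [mem_filter, mem_union] at hm ⊢
        tauto
      · rw [Finset.disjoint_left]
        intro m a1 a2
        rw [mem_filter] at a1 a2
        exact a2.2.2 a1.2
    have h6' : (N 6 n : ℝ) ≤ ((Icc 1 n).filter (fun m => Squarefree m ∧ m.Coprime 2310)).card +
        ((Icc 1 n).filter (fun m => InD 6 m ∧ ¬ (Squarefree m ∧ m.Coprime 2310))).card := by
      exact_mod_cast h6
    have hN6 : (N 6 n : ℝ) ≤ (385 / 1152 * (6 / Real.pi ^ 2) + ε / 2) * n := by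
      nlinarith
    constructor
    · nlinarith
    · nlinarith
  · have h7 : Null (fun m => ¬ (InD 4 m ↔ ¬ Squarefree m) ∨
        ¬ ((InD 5 m ∨ InD 6 m) ↔ Squarefree m) ∨ (InD 6 m ∧ ¬ m.Coprime 2310)) := by
      refine null_union inD_four (null_union inD_five_six ?_)
      refine null_mono inD_six 0 (fun m _ h => ?_)
      exact ⟨h.1, fun h2 => h.2 h2.2⟩
    convert Y338.SF.t_DENS _ h7 using 6

end Pool.Agent.Y859.SF.D456
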