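import Pool.Agent.Y859.SF.Stm
import Pool.Agent.Helper601.PartA3
import Pool.Agent.Helper112.LS

/-!
# Project SF: the known facts, from the other libraries
-/

set_option autoImplicit false

namespace Pool.Agent.Y859.SF

open Finset

theorem rep_bridge {m b y y' : ℕ} (h : Rep m b y y') : Pool.Agent.Helper601.Rep m b y y' 0 := by
  obtain ⟨h1, h2, h3, h4⟩ := h
  refine ⟨Nat.zero_le _, h1, h2, h3, ?_⟩
  simpa using h4

theorem k_PA : S_PA := by
  obtain ⟨m₀, -, h⟩ := Pool.Agent.Helper601.partA (1 / 100) (by norm_num)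
  refine ⟨m₀, fun m hm b y y' hR => ?_⟩
  obtain ⟨h1, h2, -⟩ := h m hm b y y' 0 (rep_bridge hR)
  have e : (1 / 2 + 1 / 100 : ℝ) = 51 / 100 := by norm_num
  rw [e] at h1 h2
  exact ⟨h1, h2⟩

theorem k_PNT : S_PNT := Pool.Agent.Helper601.PNT.theta_div_tendsto

theorem k_MER : S_MER := by
  obtain ⟨C, hC⟩ := Pool.Agent.Helper601.Mertens.mertens_log
  refine ⟨|C| + 1, by positivity, fun z hz => (hC z hz).trans ?_⟩
  linarith [le_abs_self C]

theorem k_LS : S_LS := by
  intro N F α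
  have h := Pool.Agent.Helper112.additive_large_sieve N F α
  refine le_trans (le_of_eq ?_) h
  refine sum_congr rfl fun f _ => sum_congr rfl fun a _ => ?_
  congr 2

theorem k_REPF : S_REPF := by
  intro m b y y' z hR hz hmz ht hs g P hbg hgm hP hzP hPg
  have hPr : (0 : ℝ) < P := hz.trans hzP
  have hmP : m < P ^ 2 := by
    have h1 : (m : ℝ) < (P : ℝ) ^ 2 := hmz.trans (pow_lt_pow_left₀ hzP hz.le two_ne_zero)
    exact_mod_cast h1
  have htP : m - b ≤ P := by
    have : ((m - b : ℕ) : ℝ) ≤ P := ht.trans hzP.le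
    exact_mod_cast this
  have hsP : y - y' ≤ P := by
    have : ((y - y' : ℕ) : ℝ) ≤ P := hs.trans hzP.le
    exact_mod_cast this
  have h1 := Pool.Agent.Helper601.rep_large (rep_bridge hR) hP hmP hP.pos htP hsP
  obtain ⟨hy1, hy2, hbm, -⟩ := hR
  obtain ⟨k, rfl⟩ := hPg
  have hP0 : 0 < P := hP.pos
  have hk0 : 0 < k := by
    rcases Nat.eq_zero_or_pos k with h | h
    · subst h; simp at hbg
    · exact h
  -- m / P > b / P
  have h2 : b / P < m / P := by
    have e1 : k ≤ m / P := (Nat.le_div_iff_mul_le hP0).2 (by rw [mul_comm]; exact hgm)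
    have e2 : b / P < k := (Nat.div_lt_iff_lt_mul hP0).2 (by rw [mul_comm]; exact hbg)
    omega
  have h3 : y' / P < y / P := by omega
  set k' := y / P with hk'
  have h4 : P * k' ≤ y := Nat.mul_div_le y P
  have h5 : y' < P * k' := by
    have := (Nat.div_lt_iff_lt_mul hP0).1 h3
    rwa [mul_comm] at this
  have hk'0 : 0 < k' := by
    rcases Nat.eq_zero_or_pos k' with h | h
    · rw [h] at h5; simp at h5
    · exact h
  have hk'k : k' < k := by
    have : P * k' < P * k := lt_of_le_of_lt (h4.trans hy2) hbg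
    exact lt_of_mul_lt_mul_left this (Nat.zero_le _)
  have h6 : ((k' : ℚ) / k).den ∣ k := by
    have := Rat.den_dvd (k' : ℤ) (k : ℤ)
    rw [Rat.divInt_eq_div] at this
    push_cast at this
    exact_mod_cast this
  refine ⟨(k' : ℚ) / k, by positivity, ?_, ?_, ?_, ?_, ?_⟩
  · rw [div_lt_one (by exact_mod_cast hk0)]
    exact_mod_cast hk'k
  · exact h6.mul_left P
  · have h7 : ((k' : ℚ) / k).den ≤ k := Nat.le_of_dvd hk0 h6
    have h8 : (((k' : ℚ) / k).den : ℝ) ≤ k := by exact_mod_cast h7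
    calc (((k' : ℚ) / k).den : ℝ) * z ≤ k * P := by
          apply mul_le_mul h8 hzP.le hz.le (by positivity)
      _ ≤ m := by
          have : P * k ≤ m := hgm
          rw [mul_comm]
          exact_mod_cast this
  · push_cast
    have hkq : (k : ℚ) ≠ 0 := by exact_mod_cast hk0.ne'
    have : (k' : ℚ) / k * (P * k) = P * k' := by field_simp
    rw [this]
    exact_mod_cast h5
  · push_cast
    have hkq : (k : ℚ) ≠ 0 := by exact_mod_cast hk0.ne'
    have : (k' : ℚ) / k * (P * k) = P * k' := by field_simp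
    rw [this]
    exact_mod_cast h4

/-- the three ranges together -/
theorem es_of (h1 : S_ES1) (h2 : S_ES2) (h3 : S_ES3) : S_ES := by
  obtain ⟨c₁, hc₁, s₁, h1⟩ := h1
  obtain ⟨c₂, hc₂, s₂, h2⟩ := h2
  obtain ⟨c₃, hc₃, s₃, h3⟩ := h3
  have key : ∀ {c c' : ℝ} {A s : ℕ}, 1 ≤ s → c' ≤ c → Many c A s → Many c' A s := by
    intro c c' A s hs hcc hM
    obtain ⟨P, hP, hcard⟩ := hM
    refine ⟨P, hP, le_trans ?_ hcard⟩
    have : 0 ≤ Real.log s := Real.log_natCast_nonneg s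
    gcongr
  refine ⟨min c₁ (min c₂ c₃), by positivity, s₁ + s₂ + s₃ + 1, ?_⟩
  intro A s hs
  by_cases ha : s ^ 2 ≤ 4 * A
  · exact key (by omega) (min_le_left _ _) (h1 A s (by omega) ha)
  · by_cases hb : 8 * s ≤ A
    · exact key (by omega) ((min_le_right _ _).trans (min_le_left _ _))
        (h2 A s (by omega) hb (by omega))
    · exact key (by omega) ((min_le_right _ _).trans (min_le_right _ _))
        (h3 A s (by omega) (by omega))

/-- the classification from its parts -/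
theorem cls_of (h3 : S_3) (h4 : S_S4) (h5 : S_5) : S_CLS := by
  intro ε hε
  obtain ⟨h, N₁, h3⟩ := h3 (ε / 3) (by positivity)
  obtain ⟨N₂, h4⟩ := h4 h (ε / 3) (by positivity)
  obtain ⟨N₃, h5⟩ := h5 h (ε / 3) (by positivity)
  refine ⟨N₁ + N₂ + N₃, fun N hN => ?_⟩
  obtain ⟨B₁, hB₁, h3⟩ := h3 N (by omega)
  obtain ⟨B₂, hB₂, h4⟩ := h4 N (by omega)
  obtain ⟨B₃, hB₃, h5⟩ := h5 N (by omega)
  refine ⟨B₁ ∪ B₂ ∪ B₃, ?_, ?_⟩
  · have e1 : ((B₁ ∪ B₂ ∪ B₃).card : ℝ) ≤ B₁.card + B₂.card + B₃.card := by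
      have e2 := card_union_le (B₁ ∪ B₂) B₃
      have e3 := card_union_le B₁ B₂
      exact_mod_cast (by omega : (B₁ ∪ B₂ ∪ B₃).card ≤ B₁.card + B₂.card + B₃.card)
    linarith
  · rintro m hm1 hm2 ⟨b, y, y', hR, hne⟩
    rw [mem_union, mem_union]
    by_cases ht : h ≤ m - b
    · exact Or.inl (Or.inl (h3 m hm1 hm2 ⟨b, y, y', hR, ht⟩))
    · by_cases hs : Real.log m < ((y - y' : ℕ) : ℝ) ^ 4
      · exact Or.inl (Or.inr (h4 m hm1 hm2 ⟨b, y, y', hR, by omega, hs⟩))
      · exact Or.inr (h5 m hm1 hm2 ⟨b, y, y', hR, by omega, not_lt.1 hs, hne⟩)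

end Pool.Agent.Y859.SF
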