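import Pool.Agent.Y859.SF.Stm

/-!
# Project SF: the density of `D_4` from the classification
-/

set_option autoImplicit false

namespace Pool.Agent.Y859.SF

open Finset Filter

theorem blk_mul (A B : ℕ) (h : A ≤ B) : A.factorial * blk A B = B.factorial := by
  induction B, h using Nat.le_induction with
  | base => simp [blk]
  | succ n hn ih =>
    have e : blk A (n + 1) = blk A n * (n + 1) := by
      unfold blk
      rw [← Finset.insert_Ioc_right_eq_Ioc_add_one (by omega), prod_insert (by simp)]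
      ring
    rw [e, Nat.factorial_succ, ← mul_assoc, ih]
    ring

/-- the trivial representations -/
theorem rep_triv {m b y y' : ℕ} (h : Rep m b y y') (h1 : m - b = 1) (h2 : y - y' = 1) :
    1 ≤ y ∧ y < m ∧ IsSquare (m * y) := by
  obtain ⟨ha, hb, hc, hsq⟩ := h
  have e1 : m = b + 1 := by omega
  have e2 : y = y' + 1 := by omega
  refine ⟨by omega, by omega, ?_⟩
  subst e1
  have hy0 : y'.factorial ≠ 0 := Nat.factorial_ne_zero _
  have hb0 : b.factorial ≠ 0 := Nat.factorial_ne_zero _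
  obtain ⟨r, hr⟩ := hsq
  subst e2
  have h3 : (b.factorial * y'.factorial) ^ 2 * ((b + 1) * (y' + 1)) = r ^ 2 := by
    rw [Nat.factorial_succ, Nat.factorial_succ] at hr
    rw [pow_two r, ← hr]
    ring
  have h4 : (b.factorial * y'.factorial) ∣ r := by
    rw [← Nat.pow_dvd_pow_iff two_ne_zero]
    exact Dvd.intro _ h3
  obtain ⟨u, rfl⟩ := h4
  refine ⟨u, ?_⟩
  have h5 : (b.factorial * y'.factorial) ^ 2 ≠ 0 := by positivity
  apply Nat.eq_of_mul_eq_mul_left (Nat.pos_of_ne_zero h5)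
  rw [h3]
  ring

theorem not_squarefree_of {m y : ℕ} (hy : 1 ≤ y) (hym : y < m) (h : IsSquare (m * y)) :
    ¬ Squarefree m := by
  intro hm
  obtain ⟨r, hr⟩ := h
  have h1 : m ∣ r := by
    have : m ∣ r ^ 2 := ⟨y, by rw [pow_two]; exact hr.symm⟩
    exact (hm.dvd_pow_iff_dvd two_ne_zero).1 this
  obtain ⟨u, rfl⟩ := h1
  have hm0 : 0 < m := by omega
  have h2 : y = m * (u * u) := by
    apply Nat.eq_of_mul_eq_mul_left hm0
    rw [hr]; ring
  have hu : 1 ≤ u * u := by
    rcases Nat.eq_zero_or_pos (u * u) with h | h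
    · rw [h] at h2; omega
    · exact h
  have : m * 1 ≤ m * (u * u) := Nat.mul_le_mul_left _ hu
  omega

theorem null_sq : Null (fun m => IsSquare m) := by
  intro ε hε
  obtain ⟨N₀, hN₀⟩ := exists_nat_gt (16 / ε ^ 2 + 16)
  refine ⟨N₀ + 1, fun N hN => ?_⟩
  refine ⟨(range (Nat.sqrt (2 * N) + 1)).image (fun r => r * r), ?_, ?_⟩
  · have h1 : ((range (Nat.sqrt (2 * N) + 1)).image (fun r => r * r)).card ≤
        Nat.sqrt (2 * N) + 1 := by
      refine card_image_le.trans ?_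
      simp
    have h1' : (((range (Nat.sqrt (2 * N) + 1)).image (fun r => r * r)).card : ℝ) ≤
        (Nat.sqrt (2 * N) : ℝ) + 1 := by exact_mod_cast h1
    refine h1'.trans ?_
    have hNr : 16 / ε ^ 2 + 16 < (N : ℝ) := by
      refine hN₀.trans_le ?_
      exact_mod_cast (by omega : N₀ ≤ N)
    have h2 : ((Nat.sqrt (2 * N) : ℕ) : ℝ) ^ 2 ≤ 2 * N := by
      exact_mod_cast Nat.sqrt_le' (2 * N)
    have h3 : 16 / ε ^ 2 ≤ (N : ℝ) := by linarith
    have h4 : 16 ≤ (N : ℝ) := by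
      have : 0 ≤ 16 / ε ^ 2 := by positivity
      linarith
    have h5 : 16 ≤ ε ^ 2 * N := by
      rwa [div_le_iff₀ (by positivity), mul_comm] at h3
    have h6 : (0 : ℝ) ≤ (Nat.sqrt (2 * N) : ℝ) := Nat.cast_nonneg _
    have h7 : ((Nat.sqrt (2 * N) : ℝ) + 1) ^ 2 ≤ (ε * N) ^ 2 := by
      have h8 : ((Nat.sqrt (2 * N) : ℝ) + 1) ^ 2 ≤ 2 * (2 * N) + 2 := by nlinarith [sq_nonneg ((Nat.sqrt (2 * N) : ℝ) - 1)]
      have h9 : (16 : ℝ) * N ≤ (ε * N) ^ 2 := by
        have := mul_le_mul_of_nonneg_right h5 (by linarith : (0 : ℝ) ≤ N)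
        calc (16 : ℝ) * N ≤ ε ^ 2 * N * N := this
          _ = (ε * N) ^ 2 := by ring
      linarith
    have h10 : 0 ≤ ε * N := by positivity
    exact le_of_sq_le_sq h7 h10
  · rintro m hm1 hm2 ⟨r, hr⟩
    rw [mem_image]
    refine ⟨r, ?_, hr.symm⟩
    rw [mem_range]
    have : r ≤ Nat.sqrt (2 * N) := Nat.le_sqrt.2 (by omega)
    omega

theorem null_union {S T : ℕ → Prop} (h1 : Null S) (h2 : Null T) : Null (fun m => S m ∨ T m) := by
  intro ε hε
  obtain ⟨N₁, h1⟩ := h1 (ε / 2) (by positivity)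
  obtain ⟨N₂, h2⟩ := h2 (ε / 2) (by positivity)
  refine ⟨N₁ + N₂, fun N hN => ?_⟩
  obtain ⟨B₁, hB₁, h1⟩ := h1 N (by omega)
  obtain ⟨B₂, hB₂, h2⟩ := h2 N (by omega)
  refine ⟨B₁ ∪ B₂, ?_, ?_⟩
  · have e3 := card_union_le B₁ B₂
    have : ((B₁ ∪ B₂).card : ℝ) ≤ B₁.card + B₂.card := by exact_mod_cast e3
    linarith
  · rintro m hm1 hm2 (h | h)
    · exact mem_union_left _ (h1 m hm1 hm2 h)
    · exact mem_union_right _ (h2 m hm1 hm2 h)

theorem null_mono {S T : ℕ → Prop} (h1 : Null T) (M : ℕ) (h : ∀ m, M ≤ m → S m → T m) :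
    Null S := by
  intro ε hε
  obtain ⟨N₁, h1⟩ := h1 ε hε
  refine ⟨N₁ + M, fun N hN => ?_⟩
  obtain ⟨B₁, hB₁, h1⟩ := h1 N (by omega)
  exact ⟨B₁, hB₁, fun m hm1 hm2 hS => h1 m hm1 hm2 (h m (by omega) hS)⟩

/-- `m` lies in `D_k` -/
def InD (k m : ℕ) : Prop := InF k m ∧ ¬ InF (k - 1) m

open Classical in
/-- the counting function of `D_k` -/
noncomputable def countD (k n : ℕ) : ℕ := ((Icc 1 n).filter (fun m => InD k m)).card

theorem null_F3 (hc : S_CLS) (h3 : S_F3) : Null (fun m => InF 3 m) := by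
  refine null_mono (null_union hc null_sq) 2 (fun m hm h => ?_)
  obtain ⟨b, y, hR⟩ := h3 m hm h
  by_cases ht : m - b = 1 ∧ y - 0 = 1
  · right
    obtain ⟨-, -, h5⟩ := rep_triv hR ht.1 ht.2
    have : y = 1 := by omega
    rw [this, mul_one] at h5
    exact h5
  · left
    exact ⟨b, y, 0, hR, ht⟩

theorem null_D4 (hc : S_CLS) (h4 : S_F4) (h3 : S_F3) (hn : S_NSF) :
    Null (fun m => ¬ (InD 4 m ↔ ¬ Squarefree m)) := by
  refine null_mono (null_union hc (null_F3 hc h3)) 2 (fun m hm h => ?_)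
  by_contra hcon
  rw [not_or] at hcon
  apply h
  constructor
  · rintro ⟨h5, -⟩
    obtain ⟨b, y, y', hR⟩ := h4 m hm h5
    by_cases ht : m - b = 1 ∧ y - y' = 1
    · obtain ⟨e1, e2, e3⟩ := rep_triv hR ht.1 ht.2
      exact not_squarefree_of e1 e2 e3
    · exact absurd ⟨b, y, y', hR, ht⟩ hcon.1
  · intro h5
    exact ⟨hn m (by omega) h5, hcon.2⟩

open Classical in
/-- **the density of `D_4`** -/
theorem main (hc : S_CLS) (h4 : S_F4) (h3 : S_F3) (hn : S_NSF) (hs : S_SQF) (hd : S_DENS) :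
    Tendsto (fun n : ℕ => (countD 4 n : ℝ) / n) atTop (nhds (1 - 6 / Real.pi ^ 2)) ∧
    Tendsto (fun n : ℕ => (((Icc 1 n).filter (fun m => ¬ (InD 4 m ↔ ¬ Squarefree m))).card : ℝ) / n)
      atTop (nhds 0) ∧
    Tendsto (fun n : ℕ => (((Icc 1 n).filter (fun m => InF 3 m)).card : ℝ) / n) atTop
      (nhds 0) := by
  have hA : Tendsto (fun n : ℕ =>
      (((Icc 1 n).filter (fun m => ¬ (InD 4 m ↔ ¬ Squarefree m))).card : ℝ) / n)
      atTop (nhds 0) := by
    convert hd _ (null_D4 hc h4 h3 hn) using 6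
  have hB : Tendsto (fun n : ℕ => (((Icc 1 n).filter (fun m => InF 3 m)).card : ℝ) / n) atTop
      (nhds 0) := by
    convert hd _ (null_F3 hc h3) using 6
  refine ⟨?_, hA, hB⟩
  set a : ℕ → ℝ := fun n => (((Icc 1 n).filter (fun m => Squarefree m)).card : ℝ) / n with ha
  have key : ∀ n : ℕ, 1 ≤ n → |(countD 4 n : ℝ) / n - (1 - a n)| ≤
      (((Icc 1 n).filter (fun m => ¬ (InD 4 m ↔ ¬ Squarefree m))).card : ℝ) / n := by
    intro n hn'
    have hnr : (0 : ℝ) < n := by exact_mod_cast hn'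
    have h5 : ((Icc 1 n).filter (fun m => Squarefree m)).card +
        ((Icc 1 n).filter (fun m => ¬ Squarefree m)).card = n := by
      rw [card_filter_add_card_filter_not]
      simp
    have h5' : (((Icc 1 n).filter (fun m => ¬ Squarefree m)).card : ℝ) / n = 1 - a n := by
      have : ((((Icc 1 n).filter (fun m => Squarefree m)).card : ℝ) +
        (((Icc 1 n).filter (fun m => ¬ Squarefree m)).card : ℝ)) = n := by exact_mod_cast h5
      rw [ha]
      field_simp
      linarith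
    rw [← h5', ← sub_div, abs_div, abs_of_pos hnr]
    apply div_le_div_of_nonneg_right _ hnr.le
    set P := (Icc 1 n).filter (fun m => InD 4 m)
    set Q := (Icc 1 n).filter (fun m => ¬ Squarefree m)
    set D := (Icc 1 n).filter (fun m => ¬ (InD 4 m ↔ ¬ Squarefree m))
    have hP : P ⊆ Q ∪ D := by
      intro m hm
      simp only [P, Q, D, mem_filter, mem_union] at hm ⊢
      tauto
    have hQ : Q ⊆ P ∪ D := by
      intro m hm
      simp only [P, Q, D, mem_filter, mem_union] at hm ⊢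
      tauto
    have h6 : P.card ≤ Q.card + D.card := (card_le_card hP).trans (card_union_le _ _)
    have h7 : Q.card ≤ P.card + D.card := (card_le_card hQ).trans (card_union_le _ _)
    have h6' : (P.card : ℝ) ≤ Q.card + D.card := by exact_mod_cast h6
    have h7' : (Q.card : ℝ) ≤ P.card + D.card := by exact_mod_cast h7
    show |((P.card : ℕ) : ℝ) - Q.card| ≤ D.card
    rw [abs_le]
    constructor <;> linarith
  have hs' : Tendsto (fun n => 1 - a n) atTop (nhds (1 - 6 / Real.pi ^ 2)) :=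
    tendsto_const_nhds.sub hs
  have hz : Tendsto (fun n : ℕ => (countD 4 n : ℝ) / n - (1 - a n)) atTop (nhds 0) := by
    apply squeeze_zero_norm' _ hA
    filter_upwards [eventually_ge_atTop 1] with n hn'
    rw [Real.norm_eq_abs]
    exact key n hn'
  have := hz.add hs'
  simpa using this

end Pool.Agent.Y859.SF
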