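import Pool.Agent.Y859.SF.Known
import Pool.Agent.Y859.SF.Fin
import Pool.Agent.Y391.SF.ES1U
import Pool.Agent.Y891.SF.ES1L
import Pool.Agent.Y585.SF.ES1M
import Pool.Agent.Y689.SF.ES2
import Pool.Agent.Y555.SF.ES3
import Pool.Agent.Y748.SF.S2
import Pool.Agent.Y79.SF.S4
import Pool.Agent.Y980.SF.VAR
import Pool.Agent.Y930.SF.SMA
import Pool.Agent.Y907.SF.SMB
import Pool.Agent.Y573.SF.PP
import Pool.Agent.Y573.SF.BIG
import Pool.Agent.Y363.SF.FRA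
import Pool.Agent.Y235.SF.WIN
import Pool.Agent.Y457.SF.S3A
import Pool.Agent.Y4.SF.S3B
import Pool.Agent.Y510.SF.S3
import Pool.Agent.Y573.SF.TYPZ
import Pool.Agent.Y309.SF.SQP
import Pool.Agent.Y317.SF.S5A
import Pool.Agent.Y329.SF.S5B
import Pool.Agent.Y361.SF.PELL
import Pool.Agent.Y870.SF.S5C
import Pool.Agent.Y814.SF.S5
import Pool.Agent.Y235.SF.F34
import Pool.Agent.Y293.SF.SQF
import Pool.Agent.Y338.SF.DENS

/-!
# Project SF: all parts together, no hypotheses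
-/

set_option autoImplicit false

namespace Pool.Agent.Y859.SF

theorem a_ES : S_ES :=
  es_of (Y585.SF.t_ES1M (Y391.SF.t_ES1U k_PNT) Y891.SF.t_ES1L) (Y689.SF.t_ES2 k_PNT)
    (Y555.SF.t_ES3 k_PNT)

theorem a_S2 : S_S2 := Y748.SF.t_S2 a_ES

theorem a_VAR : S_VAR := Y980.SF.t_VAR k_LS k_MER

theorem a_WIN : S_WIN := Y235.SF.t_WIN Y363.SF.t_FRA k_REPF

theorem a_3A : S_3A :=
  Y457.SF.t_3A (Y930.SF.t_SMA a_VAR k_MER) Y573.SF.t_PP Y573.SF.t_BIG a_WIN a_S2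

theorem a_3B : S_3B :=
  Y4.SF.t_3B (Y907.SF.t_SMB a_VAR k_MER) Y573.SF.t_PP Y573.SF.t_BIG a_WIN a_S2

theorem a_3 : S_3 := Y510.SF.t_3 a_3A a_3B k_PA

theorem a_5 : S_5 :=
  Y814.SF.t_5 Y573.SF.t_TYPZ Y309.SF.t_SQP Y317.SF.t_5A (Y329.SF.t_5B Y309.SF.t_SQP)
    (Y870.SF.t_5C Y361.SF.t_PELL)

/-- for almost all `m` the only representations are the trivial ones -/
theorem a_CLS : S_CLS := cls_of a_3 (Y79.SF.t_S4 a_ES) a_5

end Pool.Agent.Y859.SF
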